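import Mathlib
import Pool.Agent.Helper37.LB.All

/-!
A contractible open 3-manifold which is not a two-fold branched covering of `ℝ³`.
-/

set_option autoImplicit false

namespace Pool.Agent.Results.MP_e9500f_gt.NoDoubleCover

/-- Euclidean 3-space -/
abbrev R3 : Type := EuclideanSpace ℝ (Fin 3)

/-- Two-fold branched coverings `f : X → ℝ³` (topological version; every PL two-fold branched
covering, for any PL structure on `X`, is of this kind): `f` is continuous and surjective, its fibres
are discrete, and there is a closed set `B` whose bounded parts are contained in finitely many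
straight segments (such as every closed subpolyhedron of dimension at most one), so that `f` is a
covering with exactly two sheets over the complement of `B`. The map `f` is not assumed to be
proper, so both the complete branched coverings (Fox) and the incomplete ones are included. -/
structure IsTwoFoldBranchedCovering {X : Type} [TopologicalSpace X] (f : X → R3) : Prop where
  continuous : Continuous f
  surjective : Function.Surjective f
  discrete_fibres : ∀ y, DiscreteTopology ↥(f ⁻¹' {y})
  branch : ∃ B : Set R3, IsClosed B ∧
    (∀ R : ℝ, ∃ L : Finset (R3 × R3), B ∩ Metric.closedBall 0 R ⊆ ⋃ l ∈ L, segment ℝ l.1 l.2) ∧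
    IsCoveringMapOn f Bᶜ ∧ ∀ y ∉ B, (f ⁻¹' {y}).ncard = 2

/-- There is a contractible open subset `M` of `ℝ³` (so a contractible open 3-manifold) which admits
no two-fold branched covering `M → ℝ³`. -/
theorem result : ∃ M : Set R3, IsOpen M ∧ ContractibleSpace ↥M ∧
    ∀ f : ↥M → R3, ¬ IsTwoFoldBranchedCovering f := by
  obtain ⟨M, h1, h2, h3⟩ := CM.LB.pFinalL
  exact ⟨M, h1, h2, fun f hf => h3 f ⟨hf.continuous, hf.surjective, hf.discrete_fibres,
    hf.branch⟩⟩

end Pool.Agent.Results.MP_e9500f_gt.NoDoubleCover
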